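import Pool.Agent.J4H92.CM.Stm

/-! Project CM (MP_768c9c_nt): the positivity inequality. -/

namespace Pool.Agent.J4H76.CM

open Pool.Agent.J4H92.CM
open Filter Topology Asymptotics MeasureTheory
open scoped ComplexConjugate ComplexOrder LSeries.notation

lemma PE_diff (N : ℕ) (f : ℕ → ℂ) : Differentiable ℂ (PE N f) := by
  unfold PE
  refine Differentiable.fun_finsetProd fun p hp => ?_
  have hp0 : (p : ℂ) ≠ 0 := by
    have := (Nat.prime_of_mem_primesBelow hp).ne_zero
    exact_mod_cast this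
  exact (differentiable_const _).sub ((differentiable_const _).mul
    (differentiable_neg.const_cpow (Or.inl hp0)))

lemma PE_conj (N : ℕ) (f : ℕ → ℂ) (x : ℝ) :
    ‖PE N (fun n => conj (f n)) x‖ = ‖PE N f x‖ := by
  have e : PE N (fun n => conj (f n)) x = conj (PE N f x) := by
    unfold PE
    rw [map_prod]
    refine Finset.prod_congr rfl fun p _ => ?_
    have e2 : (p : ℂ) ^ (-(x : ℂ)) = (((p : ℝ) ^ (-x) : ℝ) : ℂ) := by
      rw [Complex.ofReal_cpow (Nat.cast_nonneg p)]
      push_cast; rfl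
    rw [map_sub, map_one, map_mul, e2, Complex.conj_ofReal]
  rw [e, Complex.norm_conj]

lemma S_conj (f : ℕ → ℂ) (n : ℕ) : ‖S (fun n => conj (f n)) n‖ = ‖S f n‖ := by
  have e : S (fun n => conj (f n)) n = conj (S f n) := by
    unfold S; rw [map_sum]
  rw [e, Complex.norm_conj]

lemma f_bd {f : ℕ → ℂ} {C : ℝ} (f0 : f 0 = 0) (hS : ∀ n : ℕ, 0 < n → ‖S f n‖ ≤ C / Real.sqrt n)
    (n : ℕ) : ‖f n‖ ≤ 2 * |C| := by
  have h1 : ∀ n, ‖S f n‖ ≤ |C| := by
    intro n
    rcases Nat.eq_zero_or_pos n with h | h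
    · rw [h]; unfold S; simp
    · refine (hS n h).trans ?_
      have h2 : (1 : ℝ) ≤ Real.sqrt n := Real.one_le_sqrt.2 (by exact_mod_cast h)
      rw [div_le_iff₀ (by linarith)]
      have := le_abs_self C
      nlinarith [abs_nonneg C]
  cases n with
  | zero => rw [f0, norm_zero]; positivity
  | succ k =>
    have e : f (k + 1) = S f (k + 1) - S f k := by
      unfold S
      rw [Finset.sum_Icc_succ_top (by omega)]; ring
    rw [e]
    have := norm_sub_le (S f (k + 1)) (S f k)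
    have h2 := h1 (k + 1)
    have h3 := h1 k
    linarith

lemma cut_le {f : ℕ → ℂ} {N0 N : ℕ} (f0 : f 0 = 0) (f1 : f 1 = 1)
    (fm : ∀ m n, 0 < m → 0 < n → f (m * n) = f m * f n)
    (hp : ∀ p : ℕ, p.Prime → N0 ≤ p → ‖f p‖ ≤ 1 / p) (hN : N0 ≤ N) (n : ℕ) :
    ‖cut N f n‖ ≤ (cut N u n).re := by
  classical
  unfold cut
  split_ifs with h
  · have e : (u n).re = 1 / (n : ℝ) := by
      unfold u
      rw [← Complex.ofReal_natCast, ← Complex.ofReal_one, ← Complex.ofReal_div, Complex.ofReal_re]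
    rw [e]
    clear e
    induction n using Nat.recOnMul with
    | zero => rw [f0]; simp
    | one => rw [f1]; simp
    | prime p pp =>
      refine hp p pp ?_
      by_contra h2
      exact h p pp (by omega) dvd_rfl
    | mul a b iha ihb =>
      rcases Nat.eq_zero_or_pos a with ha | ha
      · rw [ha, zero_mul, f0]; simp
      rcases Nat.eq_zero_or_pos b with hb | hb
      · rw [hb, mul_zero, f0]; simp
      rw [fm a b ha hb, norm_mul]
      have h1 := iha fun p pp hpN hd => h p pp hpN (hd.mul_right b)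
      have h2 := ihb fun p pp hpN hd => h p pp hpN (hd.mul_left a)
      refine (mul_le_mul h1 h2 (norm_nonneg _) (by positivity)).trans (le_of_eq ?_)
      push_cast
      rw [one_div_mul_one_div]
  · simp

/-- nonnegative Dirichlet coefficients -/
lemma pos {k : ℕ → ℂ} (hk : 0 ≤ k) (k1 : k 1 = 1) (hs : ∀ s : ℂ, 1 < s.re → LSeriesSummable k s)
    {G : ℂ → ℂ} (hG : DifferentiableOn ℂ G {s : ℂ | -(1 / 2 : ℝ) < s.re})
    (e : ∀ s : ℂ, 1 < s.re → G s = LSeries k s) {x : ℝ} (hx1 : -(1 / 2 : ℝ) < x) (hx2 : x < 0) :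
    1 ≤ G x := by
  have op : IsOpen {s : ℂ | (1 : ℝ) < s.re} := Complex.continuous_re.isOpen_preimage _ isOpen_Ioi
  have two : ((2 : ℝ) : ℂ) ∈ {s : ℂ | (1 : ℝ) < s.re} := by
    simp only [Set.mem_ofPred_eq, Complex.ofReal_re]; norm_num
  have ab : LSeries.abscissaOfAbsConv k < ((2 : ℝ) : EReal) := by
    refine lt_of_le_of_lt (LSeries.abscissaOfAbsConv_le_of_forall_lt_LSeriesSummable (x := 1)
      fun y hy => hs _ (by simpa using hy)) ?_
    exact_mod_cast (by norm_num : (1 : ℝ) < 2)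
  have G2 : 1 ≤ G ((2 : ℝ) : ℂ) := by
    rw [e _ two]
    have h1 : LSeries.term k ((2 : ℝ) : ℂ) 1 = 1 := by
      rw [LSeries.term_of_ne_zero one_ne_zero, k1]; simp
    rw [← h1]
    exact Summable.le_tsum (hs _ two) 1 fun j _ => LSeries.term_nonneg (hk j) 2
  have it : ∀ n, iteratedDeriv n G ((2 : ℝ) : ℂ) = iteratedDeriv n (LSeries k) ((2 : ℝ) : ℂ) := by
    intro n
    exact (Set.EqOn.iteratedDeriv_of_isOpen (fun s hs' => e s hs') op n two)
  have key := DifferentiableOn.nonneg_of_iteratedDeriv_nonneg (f := fun w => G (-w) - 1)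
    (c := ((-2 : ℝ) : ℂ)) (r := 5 / 2) ?_ ?_ (z := ((-x : ℝ) : ℂ)) ?_ ?_
  · have e1 : -(((-x : ℝ)) : ℂ) = x := by push_cast; ring
    simp only [e1] at key
    exact sub_nonneg.1 key
  · refine DifferentiableOn.sub_const ?_ _
    refine hG.comp differentiable_neg.differentiableOn ?_
    intro w hw
    rw [Metric.mem_ball, Complex.dist_eq] at hw
    have h1 := (Complex.abs_re_le_norm _).trans_lt hw
    rw [Complex.sub_re, Complex.ofReal_re, abs_lt] at h1
    simp only [Set.mem_ofPred_eq, Complex.neg_re]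
    linarith [h1.2]
  · intro n
    have e2 : -(((-2 : ℝ)) : ℂ) = ((2 : ℝ) : ℂ) := by push_cast; ring
    cases n with
    | zero =>
      simp only [iteratedDeriv_zero, e2]
      exact sub_nonneg.2 G2
    | succ n =>
      have e3 : iteratedDeriv (n + 1) (fun w => G (-w) - 1) ((-2 : ℝ) : ℂ) =
          iteratedDeriv (n + 1) (fun w => G (-w)) ((-2 : ℝ) : ℂ) := by
        rw [iteratedDeriv_succ', iteratedDeriv_succ']
        congr 1
        funext w
        rw [deriv_sub_const]
      rw [e3, iteratedDeriv_comp_neg, e2, smul_eq_mul, it]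
      exact LSeries.iteratedDeriv_alternating hk ab (n + 1)
  · rw [Complex.real_le_real]; linarith
  · rw [Metric.mem_ball, Complex.dist_eq, ← Complex.ofReal_sub, Complex.norm_real,
      Real.norm_eq_abs, abs_lt]
    constructor <;> linarith

theorem t_KEY : S_POS → S_MEL → S_SUM → S_EUL → S_ZET → S_ZES → S_CNJ → S_KEY := by
  intro hPOS hMEL hSUM hEUL hZET hZES hCNJ f C N0 N f0 f1 fm hS hp hN x hx1 hx2
  classical
  obtain ⟨g, hg⟩ : ∃ g : ℕ → ℂ, g = fun n => conj (f n) := ⟨_, rfl⟩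
  have g0 : g 0 = 0 := by rw [hg]; simp [f0]
  have g1 : g 1 = 1 := by rw [hg]; simp [f1]
  have gm : ∀ m n, 0 < m → 0 < n → g (m * n) = g m * g n := by
    intro m n h1 h2; rw [hg]; simp only [fm m n h1 h2, map_mul]
  have hSg : ∀ n : ℕ, 0 < n → ‖S g n‖ ≤ C / Real.sqrt n := by
    intro n hn; rw [hg, S_conj]; exact hS n hn
  have fB := f_bd f0 hS
  have gB := f_bd g0 hSg
  have u0 : u 0 = 0 := by unfold u; simp
  have u1 : u 1 = 1 := by unfold u; simp
  have um : ∀ m n, 0 < m → 0 < n → u (m * n) = u m * u n := by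
    intro m n _ _; unfold u; push_cast; rw [one_div_mul_one_div]
  have uB : ∀ n, ‖u n‖ ≤ 1 := by
    intro n
    unfold u
    rcases Nat.eq_zero_or_pos n with h | h
    · rw [h]; simp
    · rw [norm_div, norm_one, Complex.norm_natCast, div_le_one (by exact_mod_cast h)]
      exact_mod_cast h
  obtain ⟨r, hr⟩ : ∃ r, r = cut N u := ⟨_, rfl⟩
  obtain ⟨a, ha⟩ : ∃ a, a = cut N f := ⟨_, rfl⟩
  obtain ⟨b, hb⟩ : ∃ b, b = cut N g := ⟨_, rfl⟩
  have hab : (fun n => conj (a n)) = b := by
    funext n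
    rw [ha, hb]
    unfold cut
    rw [hg]
    split_ifs
    · rfl
    · exact map_zero _
  have c0 : ∀ h : ℕ → ℂ, h 0 = 0 → cut N h 0 = 0 := by
    intro h h0; unfold cut; split_ifs
    · exact h0
    · rfl
  have c1 : ∀ h : ℕ → ℂ, h 1 = 1 → cut N h 1 = 1 := by
    intro h h1; unfold cut
    rw [if_pos]
    · exact h1
    · intro p pp _ hd
      exact pp.one_lt.ne' (Nat.dvd_one.1 hd)
  have cm : ∀ h : ℕ → ℂ, (∀ m n, 0 < m → 0 < n → h (m * n) = h m * h n) →
      ∀ m n, 0 < m → 0 < n → cut N h (m * n) = cut N h m * cut N h n := by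
    intro h hm m n h1 h2
    unfold cut
    by_cases k1 : ∀ p : ℕ, p.Prime → p < N → ¬ p ∣ m
    · by_cases k2 : ∀ p : ℕ, p.Prime → p < N → ¬ p ∣ n
      · rw [if_pos k1, if_pos k2, if_pos, hm m n h1 h2]
        intro p pp hpN hd
        rcases (Nat.Prime.dvd_mul pp).1 hd with h3 | h3
        · exact k1 p pp hpN h3
        · exact k2 p pp hpN h3
      · rw [if_neg k2, mul_zero, if_neg]
        intro h3
        exact k2 fun p pp hpN hd => h3 p pp hpN (hd.mul_left m)
    · rw [if_neg k1, zero_mul, if_neg]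
      intro h3
      exact k1 fun p pp hpN hd => h3 p pp hpN (hd.mul_right n)
  have rn : ∀ n, 0 ≤ r n := by
    intro n; rw [hr]; unfold cut; split_ifs
    · unfold u
      rw [← Complex.ofReal_natCast, ← Complex.ofReal_one, ← Complex.ofReal_div,
        Complex.zero_le_real]
      positivity
    · exact le_rfl
  have P := hPOS r a (by rw [hr]; exact c0 u u0) (by rw [ha]; exact c0 f f0)
    (by rw [hr]; exact c1 u u1) (by rw [ha]; exact c1 f f1) (by rw [hr]; exact cm u um)
    (by rw [ha]; exact cm f fm) rn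
    (fun n => by rw [ha, hr]; exact cut_le f0 f1 fm hp hN n)
  rw [hab] at P
  obtain ⟨G, hG⟩ : ∃ G : ℂ → ℂ, G = fun s => (A s * m f s * PE N u s * PE N f s) *
      (A s * m g s * PE N u s * PE N g s) := ⟨_, rfl⟩
  have dG : DifferentiableOn ℂ G {s : ℂ | -(1 / 2 : ℝ) < s.re} := by
    rw [hG]
    have d1 := hMEL f C hS
    have d2 := hMEL g C hSg
    have dA : DifferentiableOn ℂ A {s : ℂ | -(1 / 2 : ℝ) < s.re} := Differentiable.differentiableOn hZET
    exact ((((dA.mul d1).mul (PE_diff N u).differentiableOn).mul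
      (PE_diff N f).differentiableOn)).mul (((dA.mul d2).mul
      (PE_diff N u).differentiableOn).mul (PE_diff N g).differentiableOn)
  have As : ∀ s : ℂ, 1 < s.re → A s = s * riemannZeta (s + 1) := by
    intro s hs
    have : s ≠ 0 := by
      intro h; rw [h] at hs; simp at hs; linarith
    unfold A
    rw [Function.update_of_ne this]
  have su : ∀ s : ℂ, 1 < s.re → LSeriesSummable r s ∧
      LSeries r s = riemannZeta (s + 1) * PE N u s := by
    intro s hs
    obtain ⟨h1, h2⟩ := hEUL u 1 N u0 u1 um uB s hs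
    rw [hr]
    exact ⟨h1, by rw [h2, hZES s hs]⟩
  have sf : ∀ s : ℂ, 1 < s.re → LSeriesSummable a s ∧ LSeries a s = s * m f s * PE N f s := by
    intro s hs
    obtain ⟨h1, h2⟩ := hEUL f _ N f0 f1 fm fB s hs
    obtain ⟨-, h3⟩ := hSUM f _ C fB hS s hs
    rw [ha]
    exact ⟨h1, by rw [h2, h3]⟩
  have sg : ∀ s : ℂ, 1 < s.re → LSeriesSummable b s ∧ LSeries b s = s * m g s * PE N g s := by
    intro s hs
    obtain ⟨h1, h2⟩ := hEUL g _ N g0 g1 gm gB s hs
    obtain ⟨-, h3⟩ := hSUM g _ C gB hSg s hs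
    rw [hb]
    exact ⟨h1, by rw [h2, h3]⟩
  have main := pos (G := G) P.1 P.2
    (fun s hs => ((su s hs).1.convolution (sf s hs).1).convolution
      ((su s hs).1.convolution (sg s hs).1)) dG (fun s hs => by
      rw [LSeries_convolution' ((su s hs).1.convolution (sf s hs).1)
        ((su s hs).1.convolution (sg s hs).1), LSeries_convolution' (su s hs).1 (sf s hs).1,
        LSeries_convolution' (su s hs).1 (sg s hs).1, (su s hs).2, (sf s hs).2, (sg s hs).2, hG]
      simp only [As s hs]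
      ring) hx1 hx2
  have n1 : (1 : ℝ) ≤ ‖G x‖ := by
    have h1 := (Complex.le_def.1 main).1
    rw [Complex.one_re] at h1
    exact h1.trans ((le_abs_self _).trans (Complex.abs_re_le_norm _))
  have n2 : ‖G x‖ = (‖A x‖ * ‖m f x‖ * ‖PE N u x‖ * ‖PE N f x‖) ^ 2 := by
    have e1 : ‖m g x‖ = ‖m f x‖ := by
      rw [hg, hCNJ f x, Complex.norm_conj, Complex.conj_ofReal]
    have e2 : ‖PE N g x‖ = ‖PE N f x‖ := by rw [hg]; exact PE_conj N f x
    rw [hG]
    simp only [norm_mul]
    rw [e1, e2]; ring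
  rw [n2] at n1
  have T0 : 0 ≤ ‖A x‖ * ‖m f x‖ * ‖PE N u x‖ * ‖PE N f x‖ := by positivity
  nlinarith

end Pool.Agent.J4H76.CM
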